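import Mathlib

/-!
Deterministic part of the Lévy–Ciesielski construction: the Schauder functions on `[0,1]` and
their reproducing kernel.
-/

open Finset Filter Topology

namespace Pool.Agent.Helper59.BM

/-- The clamp function `x ↦ max 0 (min x 1)`. -/
noncomputable def cl (x : ℝ) : ℝ := max 0 (min x 1)

lemma cl_nonneg (x : ℝ) : 0 ≤ cl x := le_max_left _ _
lemma cl_le_one (x : ℝ) : cl x ≤ 1 := max_le zero_le_one (min_le_right _ _)
lemma cl_mono : Monotone cl := fun _ _ h => max_le_max le_rfl (min_le_min h le_rfl)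
lemma cl_continuous : Continuous cl := by unfold cl; fun_prop
lemma cl_of_le_zero {x : ℝ} (h : x ≤ 0) : cl x = 0 := by
  unfold cl
  exact max_eq_left ((min_le_left _ _).trans h)
lemma cl_of_one_le {x : ℝ} (h : 1 ≤ x) : cl x = 1 := by
  unfold cl
  rw [min_eq_right h]
  exact max_eq_right zero_le_one

lemma cl_half (x : ℝ) : cl x = (cl (2 * x) + cl (2 * x - 1)) / 2 := by
  unfold cl
  rcases le_total x 0 with h | h
  · rw [max_eq_left (by exact (min_le_left _ _).trans h), max_eq_left (by exact (min_le_left _ _).trans (by linarith)),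
      max_eq_left (by exact (min_le_left _ _).trans (by linarith))]
    norm_num
  rcases le_total x (1/2) with h2 | h2
  · rw [min_eq_left (by linarith), max_eq_right h, min_eq_left (by linarith), max_eq_right (by linarith),
      min_eq_left (by linarith), max_eq_left (by linarith)]
    ring
  rcases le_total x 1 with h3 | h3
  · rw [min_eq_left h3, max_eq_right h, min_eq_right (by linarith), max_eq_right (by norm_num),
      min_eq_left (by linarith), max_eq_right (by linarith)]
    ring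
  · rw [min_eq_right h3, min_eq_right (by linarith), min_eq_right (by linarith),
      max_eq_right (by norm_num)]
    norm_num

/-- `phi n k x = 2^n |[0,x] ∩ [k/2^n, (k+1)/2^n]|`. -/
noncomputable def phi (n k : ℕ) (x : ℝ) : ℝ := cl (2 ^ n * x - k)

lemma phi_split (n k : ℕ) (x : ℝ) :
    phi n k x = (phi (n + 1) (2 * k) x + phi (n + 1) (2 * k + 1) x) / 2 := by
  unfold phi
  rw [cl_half]
  congr 2
  · congr 1
    push_cast
    ring
  · congr 1
    push_cast
    ring

/-- The Schauder functions. -/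
noncomputable def S (n k : ℕ) (x : ℝ) : ℝ :=
  (phi (n + 1) (2 * k) x - phi (n + 1) (2 * k + 1) x) / (2 * √2 ^ n)

lemma S_continuous (n k : ℕ) : Continuous (S n k) := by
  unfold S phi
  have := cl_continuous
  fun_prop

lemma sum_cl (M : ℕ) (z : ℝ) : ∑ k ∈ range M, cl (z - k) = max 0 (min z M) := by
  induction M with
  | zero => simp
  | succ M ih =>
    rw [sum_range_succ, ih]
    unfold cl
    push_cast
    rcases le_total z 0 with h | h
    · rw [max_eq_left ((min_le_left _ _).trans h), max_eq_left ((min_le_left _ _).trans h),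
        max_eq_left ((min_le_left _ _).trans (by linarith [(Nat.cast_nonneg M : (0:ℝ) ≤ M)]))]
      ring
    have hM : (0:ℝ) ≤ M := Nat.cast_nonneg M
    rcases le_total z M with h2 | h2
    · rw [min_eq_left h2, max_eq_right h, min_eq_left (by linarith), max_eq_left (by linarith),
        min_eq_left (by linarith), max_eq_right h]
      ring
    rcases le_total z (M + 1) with h3 | h3
    · rw [min_eq_right h2, max_eq_right hM, min_eq_left (by linarith), max_eq_right (by linarith),
        min_eq_left (by linarith), max_eq_right h]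
      ring
    · rw [min_eq_right h2, max_eq_right hM, min_eq_right (by linarith), max_eq_right (by norm_num),
        min_eq_right (by linarith), max_eq_right (by linarith)]

/-- kernel at level `n`. -/
noncomputable def K (n : ℕ) (x y : ℝ) : ℝ := (∑ k ∈ range (2 ^ n), phi n k x * phi n k y) / 2 ^ n

lemma sum_range_two_mul (f : ℕ → ℝ) (n : ℕ) :
    ∑ k ∈ range (2 * n), f k = ∑ k ∈ range n, (f (2 * k) + f (2 * k + 1)) := by
  induction n with
  | zero => simp
  | succ n ih =>
    rw [show 2 * (n + 1) = 2 * n + 1 + 1 by ring, sum_range_succ, sum_range_succ, ih, sum_range_succ]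
    ring

lemma K_succ (n : ℕ) (x y : ℝ) :
    K (n + 1) x y = K n x y + ∑ k ∈ range (2 ^ n), S n k x * S n k y := by
  unfold K
  rw [pow_succ' 2 n, sum_range_two_mul, sum_div, sum_div, ← sum_add_distrib]
  refine sum_congr rfl fun k _ => ?_
  rw [phi_split n k x, phi_split n k y]
  unfold S
  have h2 : (√2 ^ n) * (√2 ^ n) = 2 ^ n := by
    rw [← mul_pow, Real.mul_self_sqrt (by norm_num)]
  have h3 : (2:ℝ) ^ n ≠ 0 := by positivity
  have h4 : ∀ a b : ℝ, a / (2 * √2 ^ n) * (b / (2 * √2 ^ n)) = a * b / (4 * 2 ^ n) := by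
    intro a b
    rw [div_mul_div_comm, ← h2]
    ring
  rw [h4]
  field_simp
  ring

lemma K_zero {x y : ℝ} (hx : x ∈ Set.Icc (0:ℝ) 1) (hy : y ∈ Set.Icc (0:ℝ) 1) :
    K 0 x y = x * y := by
  unfold K phi cl
  simp [hx.1, hx.2, hy.1, hy.2]

lemma K_eq {x y : ℝ} (hx : x ∈ Set.Icc (0:ℝ) 1) (hy : y ∈ Set.Icc (0:ℝ) 1) (N : ℕ) :
    ∑ n ∈ range N, ∑ k ∈ range (2 ^ n), S n k x * S n k y = K N x y - x * y := by
  induction N with
  | zero => simp [K_zero hx hy]
  | succ N ih => rw [sum_range_succ, ih, K_succ]; ring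

lemma sum_phi {x : ℝ} (hx : x ∈ Set.Icc (0:ℝ) 1) (n : ℕ) :
    ∑ k ∈ range (2 ^ n), phi n k x = 2 ^ n * x := by
  unfold phi
  rw [sum_cl]
  have h : 2 ^ n * x ≤ 2 ^ n * 1 := mul_le_mul_of_nonneg_left hx.2 (by positivity)
  rw [min_eq_left (by push_cast; linarith), max_eq_right (mul_nonneg (by positivity) hx.1)]

lemma phi_zero_one {n k : ℕ} {x : ℝ} (hx : 0 ≤ x) (hk : k ≠ ⌊2 ^ n * x⌋₊) :
    phi n k x = 0 ∨ phi n k x = 1 := by
  have h0 : 0 ≤ 2 ^ n * x := by positivity
  rcases lt_or_gt_of_ne hk with h | h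
  · right
    apply cl_of_one_le
    have : ((k + 1 : ℕ) : ℝ) ≤ 2 ^ n * x := (Nat.le_floor_iff h0).1 h
    push_cast at this
    linarith
  · left
    apply cl_of_le_zero
    have : 2 ^ n * x < k := (Nat.floor_lt h0).1 h
    linarith

lemma phi_mul_one_sub_le {x y : ℝ} (hx : 0 ≤ x) (hxy : x ≤ y) (n : ℕ) :
    ∑ k ∈ range (2 ^ n), phi n k x * (1 - phi n k y) ≤ 1 := by
  calc ∑ k ∈ range (2 ^ n), phi n k x * (1 - phi n k y)
      ≤ ∑ k ∈ range (2 ^ n), (if k = ⌊2 ^ n * x⌋₊ then (1:ℝ) else 0) := by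
        refine sum_le_sum fun k _ => ?_
        have h1 : phi n k x ≤ phi n k y := cl_mono (by
          have : (2:ℝ) ^ n * x ≤ 2 ^ n * y := mul_le_mul_of_nonneg_left hxy (by positivity)
          linarith)
        have h2 : 0 ≤ phi n k x := cl_nonneg _
        have h3 : phi n k x ≤ 1 := cl_le_one _
        have h4 : phi n k y ≤ 1 := cl_le_one _
        split_ifs with h
        · nlinarith
        · rcases phi_zero_one hx h with h5 | h5
          · rw [h5]; simp
          · have : phi n k y = 1 := le_antisymm h4 (h5 ▸ h1)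
            rw [this]; simp
    _ ≤ 1 := by
        rw [sum_ite_eq']
        split_ifs <;> norm_num

lemma phi_mul_one_sub_nonneg (x y : ℝ) (n : ℕ) :
    0 ≤ ∑ k ∈ range (2 ^ n), phi n k x * (1 - phi n k y) :=
  sum_nonneg fun _ _ => mul_nonneg (cl_nonneg _) (sub_nonneg.2 (cl_le_one _))

lemma K_tendsto_of_le {x y : ℝ} (hx : x ∈ Set.Icc (0:ℝ) 1) (hxy : x ≤ y) :
    Tendsto (fun n => K n x y) atTop (𝓝 x) := by
  have h1 : ∀ n, K n x y = x - (∑ k ∈ range (2 ^ n), phi n k x * (1 - phi n k y)) / 2 ^ n := by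
    intro n
    have h := sum_phi hx n
    have h2 : ∑ k ∈ range (2 ^ n), phi n k x * (1 - phi n k y) =
        2 ^ n * x - ∑ k ∈ range (2 ^ n), phi n k x * phi n k y := by
      rw [← h, ← sum_sub_distrib]
      refine sum_congr rfl fun k _ => by ring
    rw [h2, K]
    have h3 : (2:ℝ) ^ n ≠ 0 := by positivity
    field_simp
    ring
  have h2 : Tendsto (fun n : ℕ => (∑ k ∈ range (2 ^ n), phi n k x * (1 - phi n k y)) / (2:ℝ) ^ n)
      atTop (𝓝 0) := by
    refine squeeze_zero (fun n => ?_) (fun n => ?_)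
      (tendsto_pow_atTop_nhds_zero_of_lt_one (r := (1/2 : ℝ)) (by norm_num) (by norm_num))
    · exact div_nonneg (phi_mul_one_sub_nonneg x y n) (by positivity)
    · rw [one_div, inv_pow, div_eq_mul_inv]
      have h5 := phi_mul_one_sub_le hx.1 hxy n
      have h6 : (0:ℝ) ≤ (2 ^ n)⁻¹ := by positivity
      nlinarith
  have h3 := (tendsto_const_nhds (x := x)).sub h2
  rw [sub_zero] at h3
  refine h3.congr fun n => (h1 n).symm

lemma K_comm (n : ℕ) (x y : ℝ) : K n x y = K n y x := by
  unfold K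
  congr 1
  exact sum_congr rfl fun _ _ => mul_comm _ _

lemma K_tendsto {x y : ℝ} (hx : x ∈ Set.Icc (0:ℝ) 1) (hy : y ∈ Set.Icc (0:ℝ) 1) :
    Tendsto (fun n => K n x y) atTop (𝓝 (min x y)) := by
  rcases le_total x y with h | h
  · rw [min_eq_left h]
    exact K_tendsto_of_le hx h
  · rw [min_eq_right h]
    refine (K_tendsto_of_le hy h).congr fun n => K_comm n y x

/-- The sum of the products of the Schauder functions converges to the covariance of the Brownian
bridge. -/
lemma S_tendsto {x y : ℝ} (hx : x ∈ Set.Icc (0:ℝ) 1) (hy : y ∈ Set.Icc (0:ℝ) 1) :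
    Tendsto (fun N => ∑ n ∈ range N, ∑ k ∈ range (2 ^ n), S n k x * S n k y) atTop
      (𝓝 (min x y - x * y)) := by
  refine ((K_tendsto hx hy).sub_const _).congr fun N => (K_eq hx hy N).symm

lemma S_eq_zero {n k : ℕ} {x : ℝ} (hx : 0 ≤ x) (hk : k ≠ ⌊2 ^ n * x⌋₊) : S n k x = 0 := by
  have h0 : 0 ≤ 2 ^ n * x := by positivity
  unfold S phi
  rcases lt_or_gt_of_ne hk with h | h
  · have : ((k + 1 : ℕ) : ℝ) ≤ 2 ^ n * x := (Nat.le_floor_iff h0).1 h
    push_cast at this
    rw [cl_of_one_le (by rw [pow_succ]; push_cast; linarith),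
      cl_of_one_le (by rw [pow_succ]; push_cast; linarith)]
    simp
  · have : 2 ^ n * x < k := (Nat.floor_lt h0).1 h
    rw [cl_of_le_zero (by rw [pow_succ]; push_cast; linarith),
      cl_of_le_zero (by rw [pow_succ]; push_cast; linarith)]
    simp

lemma abs_S_le (n k : ℕ) (x : ℝ) : |S n k x| ≤ (√2 ^ n)⁻¹ := by
  unfold S
  have h1 : |phi (n + 1) (2 * k) x - phi (n + 1) (2 * k + 1) x| ≤ 1 := by
    have a := cl_nonneg (2 ^ (n + 1) * x - ((2 * k : ℕ) : ℝ))
    have b := cl_le_one (2 ^ (n + 1) * x - ((2 * k : ℕ) : ℝ))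
    have c := cl_nonneg (2 ^ (n + 1) * x - ((2 * k + 1 : ℕ) : ℝ))
    have d := cl_le_one (2 ^ (n + 1) * x - ((2 * k + 1 : ℕ) : ℝ))
    unfold phi
    rw [abs_le]
    constructor <;> linarith
  have h2 : (0:ℝ) < √2 ^ n := by positivity
  rw [abs_div, abs_of_pos (by positivity : (0:ℝ) < 2 * √2 ^ n), div_le_iff₀ (by positivity)]
  have : (√2 ^ n)⁻¹ * (2 * √2 ^ n) = 2 := by field_simp
  rw [this]
  linarith

/-- Bound for the `n`-th layer. -/
lemma abs_layer_le {n : ℕ} {x : ℝ} (hx : 0 ≤ x) (w : ℕ → ℝ) {M : ℝ} (hM : 0 ≤ M)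
    (hw : ∀ k < 2 ^ n, |w k| ≤ M) :
    |∑ k ∈ range (2 ^ n), w k * S n k x| ≤ M * (√2 ^ n)⁻¹ := by
  have h0 : (0:ℝ) ≤ (√2 ^ n)⁻¹ := by positivity
  calc |∑ k ∈ range (2 ^ n), w k * S n k x|
      ≤ ∑ k ∈ range (2 ^ n), |w k * S n k x| := abs_sum_le_sum_abs _ _
    _ ≤ ∑ k ∈ range (2 ^ n), (if k = ⌊2 ^ n * x⌋₊ then M * (√2 ^ n)⁻¹ else 0) := by
        refine sum_le_sum fun k hk => ?_
        split_ifs with h
        · rw [abs_mul]
          exact mul_le_mul (hw k (mem_range.1 hk)) (abs_S_le n k x) (abs_nonneg _) hM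
        · rw [S_eq_zero hx h]; simp
    _ ≤ M * (√2 ^ n)⁻¹ := by
        rw [sum_ite_eq']
        split_ifs
        · exact le_rfl
        · positivity

end Pool.Agent.Helper59.BM
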