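import Pool.Agent.Helper59.BM.Prob

/-!
Existence of real Brownian motion: the law.
-/

open MeasureTheory ProbabilityTheory Filter Topology Finset
open scoped ENNReal NNReal

namespace Pool.Agent.Helper59.BM

lemma xx_cov (s t : ℝ≥0) :
    (1 + (s:ℝ)) * (1 + t) * (min (xx s) (xx t) - xx s * xx t) = min (s:ℝ) t := by
  have hs : (0:ℝ) < 1 + s := by positivity
  have ht : (0:ℝ) < 1 + t := by positivity
  have key : ∀ s t : ℝ≥0, s ≤ t → (1 + (s:ℝ)) * (1 + t) * (min (xx s) (xx t) - xx s * xx t) = min (s:ℝ) t := by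
    intro s t hst
    have hs : (0:ℝ) < 1 + s := by positivity
    have ht : (0:ℝ) < 1 + t := by positivity
    have hst' : (s:ℝ) ≤ t := by exact_mod_cast hst
    have h1 : xx s ≤ xx t := by
      unfold xx
      rw [div_le_div_iff₀ hs ht]
      nlinarith
    rw [min_eq_left h1, min_eq_left hst']
    unfold xx
    field_simp
    ring
  rcases le_total s t with h | h
  · exact key s t h
  · rw [min_comm (xx s), mul_comm (xx s), min_comm (s:ℝ), mul_comm (1 + (s:ℝ))]
    exact key t s h

/-- finite index sets -/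
def FF (N : ℕ) : Finset Idx := (range N).sigma fun n => range (2 ^ n)

lemma sum_FF (N : ℕ) (f : Idx → ℝ) : ∑ p ∈ FF N, f p = ∑ n ∈ range N, ∑ k ∈ range (2 ^ n), f ⟨n, k⟩ := by
  unfold FF
  rw [sum_sigma]

section lin

variable {ι : Type*} [Fintype ι] (t : ι → ℝ≥0) (c : ι → ℝ)

/-- coefficients -/
noncomputable def aa (p : Idx) : ℝ := ∑ i, c i * (1 + t i) * S p.1 p.2 (xx (t i))

lemma lin_eq (N : ℕ) (ω : Om) :
    ∑ i, c i * BN N (t i) ω = ∑ p ∈ FF N, ω p * aa t c p := by
  unfold aa
  simp_rw [mul_sum]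
  rw [sum_comm]
  refine sum_congr rfl fun i _ => ?_
  unfold BN D
  rw [sum_FF, mul_sum, mul_sum]
  refine sum_congr rfl fun n _ => ?_
  rw [mul_sum, mul_sum]
  refine sum_congr rfl fun k _ => ?_
  ring

lemma var_tendsto : Tendsto (fun N => ∑ p ∈ FF N, aa t c p ^ 2) atTop
    (𝓝 (∑ i, ∑ j, c i * c j * min (t i : ℝ) (t j))) := by
  have h1 : ∀ N, ∑ p ∈ FF N, aa t c p ^ 2 = ∑ i, ∑ j, c i * c j * ((1 + (t i:ℝ)) * (1 + t j) *
      ∑ n ∈ range N, ∑ k ∈ range (2 ^ n), S n k (xx (t i)) * S n k (xx (t j))) := by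
    intro N
    have h2 : ∀ p : Idx, aa t c p ^ 2 = ∑ i, ∑ j, c i * c j * ((1 + (t i:ℝ)) * (1 + t j)) *
        (S p.1 p.2 (xx (t i)) * S p.1 p.2 (xx (t j))) := by
      intro p
      unfold aa
      rw [sq, sum_mul_sum]
      refine sum_congr rfl fun i _ => sum_congr rfl fun j _ => by ring
    simp_rw [h2]
    rw [sum_comm]
    refine sum_congr rfl fun i _ => ?_
    rw [sum_comm]
    refine sum_congr rfl fun j _ => ?_
    rw [← mul_sum, sum_FF, mul_assoc]
  simp_rw [h1]
  refine tendsto_finsetSum _ fun i _ => tendsto_finsetSum _ fun j _ => ?_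
  have h3 := (S_tendsto (xx_mem (t i)) (xx_mem (t j))).const_mul ((1 + (t i:ℝ)) * (1 + t j))
  rw [xx_cov] at h3
  exact h3.const_mul _

lemma var_nonneg : 0 ≤ ∑ i, ∑ j, c i * c j * min (t i : ℝ) (t j) :=
  ge_of_tendsto' (var_tendsto t c) fun _ => sum_nonneg fun _ _ => sq_nonneg _

lemma lin_measurable : Measurable fun ω : Om => ∑ i, c i * B (t i) ω := by
  have := B_measurable
  fun_prop

lemma linN_measurable (N : ℕ) : Measurable fun ω : Om => ∑ i, c i * BN N (t i) ω := by
  have := BN_measurable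
  fun_prop

lemma lin_law : PP.map (fun ω : Om => ∑ i, c i * B (t i) ω) =
    gaussianReal 0 (∑ i, ∑ j, c i * c j * min (t i : ℝ) (t j)).toNNReal := by
  have hm := lin_measurable t c
  have : IsProbabilityMeasure (PP.map (fun ω : Om => ∑ i, c i * B (t i) ω)) :=
    Measure.isProbabilityMeasure_map hm.aemeasurable
  apply Measure.ext_of_charFun
  ext u
  rw [charFun_gaussianReal]
  have h1 : Tendsto (fun N => charFun (PP.map fun ω : Om => ∑ i, c i * BN N (t i) ω) u) atTop
      (𝓝 (charFun (PP.map fun ω : Om => ∑ i, c i * B (t i) ω) u)) := by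
    rw [charFun_apply_real, integral_map hm.aemeasurable (by fun_prop)]
    have h2 : ∀ N, charFun (PP.map fun ω : Om => ∑ i, c i * BN N (t i) ω) u =
        ∫ ω, Complex.exp (u * (∑ i, c i * BN N (t i) ω : ℝ) * Complex.I) ∂PP := by
      intro N
      rw [charFun_apply_real, integral_map (linN_measurable t c N).aemeasurable (by fun_prop)]
    simp_rw [h2]
    refine tendsto_integral_of_dominated_convergence (fun _ => (1:ℝ)) (fun N => ?_)
      (integrable_const _) (fun N => ae_of_all _ fun ω => ?_) ?_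
    · have := linN_measurable t c N
      apply Measurable.aestronglyMeasurable
      fun_prop
    · rw [← Complex.ofReal_mul, Complex.norm_exp_ofReal_mul_I]
    · filter_upwards [G_ae] with ω hω
      have h3 : Tendsto (fun N => ∑ i, c i * BN N (t i) ω) atTop (𝓝 (∑ i, c i * B (t i) ω)) :=
        tendsto_finsetSum _ fun i _ => (BN_tendsto hω (t i)).const_mul _
      have h4 : Continuous fun x : ℝ => Complex.exp (u * (x : ℝ) * Complex.I) := by fun_prop
      exact (h4.tendsto _).comp h3
  refine tendsto_nhds_unique h1 ?_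
  have h5 : ∀ N, charFun (PP.map fun ω : Om => ∑ i, c i * BN N (t i) ω) u =
      Complex.exp (-(((∑ p ∈ FF N, aa t c p ^ 2 : ℝ) : ℂ) * u ^ 2 / 2)) := by
    intro N
    simp_rw [lin_eq]
    exact charFun_lin _ _ _
  simp_rw [h5]
  have h6 : ((u:ℂ) * ((0:ℝ):ℂ) * Complex.I - (((∑ i, ∑ j, c i * c j * min (t i : ℝ) (t j)).toNNReal : ℝ) : ℂ) * u ^ 2 / 2) =
      -(((∑ i, ∑ j, c i * c j * min (t i : ℝ) (t j) : ℝ) : ℂ) * u ^ 2 / 2) := by
    rw [Real.coe_toNNReal _ (var_nonneg t c)]
    simp
  have h7 : Continuous fun v : ℝ => Complex.exp (-((v : ℂ) * u ^ 2 / 2)) := by fun_prop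
  have h8 := (h7.tendsto _).comp (var_tendsto t c)
  rw [← h6] at h8
  exact h8

end lin

lemma B_isGaussianProcess : IsGaussianProcess B PP where
  hasGaussianLaw I := by
    refine ⟨isGaussian_of_map_eq_gaussianReal fun L => ?_⟩
    classical
    have hm : Measurable (fun ω : Om => I.restrict fun t => B t ω) := by
      rw [measurable_pi_iff]
      exact fun i => B_measurable _
    have h1 : (fun ω : Om => ∑ i : I, (L (Pi.single i 1)) * B (i : ℝ≥0) ω) =
        (⇑L ∘ fun ω : Om => I.restrict fun t => B t ω) := by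
      funext ω
      have h2 := L.toLinearMap.pi_apply_eq_sum_univ (I.restrict fun t => B t ω)
      simp only [Function.comp_apply]
      have h3 : L (I.restrict fun t => B t ω) = ∑ i : I, (I.restrict (fun t => B t ω)) i •
        L (fun j => if i = j then 1 else 0) := h2
      rw [h3]
      refine sum_congr rfl fun i _ => ?_
      rw [smul_eq_mul, mul_comm]
      congr 2
      funext j
      simp [Pi.single_apply, eq_comm]
    have h2 := lin_law (fun i : I => (i : ℝ≥0)) (fun i : I => L (Pi.single i 1))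
    rw [h1] at h2
    exact ⟨0, _, (Measure.map_map (by fun_prop) hm).trans h2⟩

lemma B_law (t : ℝ≥0) : PP.map (B t) = gaussianReal 0 t := by
  have h := lin_law (ι := Unit) (fun _ => t) (fun _ => 1)
  simpa using h

lemma B_mean (t : ℝ≥0) : ∫ ω, B t ω ∂PP = 0 := by
  have h : ∫ x, x ∂(PP.map (B t)) = ∫ ω, B t ω ∂PP :=
    integral_map (B_measurable t).aemeasurable (by fun_prop)
  rw [← h, B_law, integral_id_gaussianReal]

lemma B_var (t : ℝ≥0) : Var[B t; PP] = t := by
  have h := variance_id_map (μ := PP) (X := B t) (B_measurable t).aemeasurable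
  rw [← h, B_law, variance_id_gaussianReal]

lemma B_sub_law (s t : ℝ≥0) (hst : s ≤ t) : PP.map (fun ω => B t ω - B s ω) = gaussianReal 0 (t - s) := by
  have h := lin_law (ι := Bool) (fun b => if b then t else s) (fun b => if b then 1 else -1)
  have hst' : (s:ℝ) ≤ t := by exact_mod_cast hst
  simp only [Fintype.sum_bool, if_true, Bool.false_eq_true, if_false, min_self, min_eq_left hst',
    min_eq_right hst', one_mul, mul_neg, mul_one, neg_mul, neg_neg] at h
  have h1 : (fun ω : Om => B t ω + -B s ω) = fun ω => B t ω - B s ω := by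
    funext ω; ring
  rw [h1] at h
  rw [h]
  congr 1
  rw [show ((t:ℝ) + -(s:ℝ) + (-(s:ℝ) + s)) = ((t - s : ℝ≥0) : ℝ) by
    rw [NNReal.coe_sub hst]; ring]
  exact Real.toNNReal_coe

lemma B_cov (s t : ℝ≥0) (hst : s ≤ t) : cov[B s, B t; PP] = s := by
  have hL : ∀ t, MemLp (B t) 2 PP := fun t => (B_isGaussianProcess.hasGaussianLaw_eval t).memLp_two
  have h1 : Var[B t - B s; PP] = t - s := by
    have h := variance_id_map (μ := PP) (X := B t - B s)
      ((B_measurable t).sub (B_measurable s)).aemeasurable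
    rw [← h]
    have h2 : PP.map (B t - B s) = gaussianReal 0 (t - s) := B_sub_law s t hst
    rw [h2, variance_id_gaussianReal, NNReal.coe_sub hst]
  rw [variance_sub (hL t) (hL s), B_var, B_var, covariance_comm] at h1
  linarith

/-- Existence of real Brownian motion. -/
theorem B_isBrownianReal : IsBrownianReal B PP where
  toIsPreBrownianReal := B_isGaussianProcess.isPreBrownianReal_of_covariance B_mean B_cov
  cont := ae_of_all _ B_continuous

end Pool.Agent.Helper59.BM
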