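import Pool.Agent.Helper59.BM.Det

/-!
Existence of real Brownian motion, by the Lévy–Ciesielski construction of the Brownian bridge `W`
on `[0,1]` and the transformation `B t = (1 + t) W (t / (1 + t))`.
-/

open MeasureTheory ProbabilityTheory Filter Topology Finset
open scoped ENNReal NNReal

namespace Pool.Agent.Helper59.BM

/-- index set of the Gaussian variables -/
abbrev Idx : Type := Σ _ : ℕ, ℕ

/-- The sample space. -/
abbrev Om : Type := Idx → ℝ

/-- Product of standard Gaussians. -/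
noncomputable def PP : Measure Om := Measure.infinitePi fun _ => gaussianReal 0 1

instance : IsProbabilityMeasure PP := by unfold PP; infer_instance

lemma indep : iIndepFun (fun (p : Idx) (ω : Om) => ω p) PP :=
  iIndepFun_infinitePi (P := fun _ : Idx => gaussianReal 0 1) (X := fun _ x => x) (by fun_prop)

lemma law (p : Idx) : PP.map (fun ω : Om => ω p) = gaussianReal 0 1 :=
  Measure.infinitePi_map_eval (fun _ : Idx => gaussianReal 0 1) p

/-- weighted sum of the eighth powers -/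
noncomputable def S8 (ω : Om) : ℝ≥0∞ :=
  ∑' n : ℕ, ∑ k ∈ range (2 ^ n), ENNReal.ofReal (ω ⟨n, k⟩ ^ 8) / 4 ^ n

lemma S8_measurable : Measurable S8 := by
  unfold S8
  refine Measurable.tsum fun n => ?_
  fun_prop

/-- eighth moment -/
noncomputable def M8 : ℝ≥0∞ := ∫⁻ x, ENNReal.ofReal (x ^ 8) ∂(gaussianReal 0 1)

lemma M8_lt_top : M8 < ∞ := by
  have h : MemLp (id : ℝ → ℝ) ((8 : ℝ≥0) : ℝ≥0∞) (gaussianReal 0 1) := memLp_id_gaussianReal 8
  have h1 : Integrable (fun x : ℝ => x ^ 8) (gaussianReal 0 1) := by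
    have h2 := h.integrable_norm_pow (by norm_num : (8:ℕ) ≠ 0)
    refine h2.congr (ae_of_all _ fun x => ?_)
    simp only [id_eq, Real.norm_eq_abs]
    exact (Even.pow_abs (by decide) x)
  have h3 := h1.lintegral_lt_top
  exact h3

lemma lintegral_pow (p : Idx) : ∫⁻ ω, ENNReal.ofReal (ω p ^ 8) ∂PP = M8 := by
  unfold M8
  rw [← law p, lintegral_map (by fun_prop) (by fun_prop)]

lemma lintegral_S8 : ∫⁻ ω, S8 ω ∂PP < ∞ := by
  unfold S8
  rw [lintegral_tsum (fun n => Measurable.aemeasurable (by fun_prop))]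
  have h1 : ∀ n : ℕ, ∫⁻ ω : Om, ∑ k ∈ range (2 ^ n), ENNReal.ofReal (ω ⟨n, k⟩ ^ 8) / 4 ^ n ∂PP
      = M8 * (2⁻¹ : ℝ≥0∞) ^ n := by
    intro n
    rw [lintegral_finsetSum _ (fun k _ => by fun_prop)]
    have h2 : ∀ k ∈ range (2 ^ n), ∫⁻ ω : Om, ENNReal.ofReal (ω ⟨n, k⟩ ^ 8) / 4 ^ n ∂PP
        = M8 * (4⁻¹ : ℝ≥0∞) ^ n := by
      intro k _
      simp_rw [div_eq_mul_inv]
      rw [lintegral_mul_const _ (by fun_prop), lintegral_pow, ENNReal.inv_pow]
    rw [sum_congr rfl h2, sum_const, card_range, nsmul_eq_mul]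
    have h3 : ((2 ^ n : ℕ) : ℝ≥0∞) * (4⁻¹ : ℝ≥0∞) ^ n = (2⁻¹ : ℝ≥0∞) ^ n := by
      push_cast
      rw [← mul_pow]
      congr 1
      rw [show (4 : ℝ≥0∞) = 2 * 2 by norm_num, ENNReal.mul_inv (by norm_num) (by norm_num),
        ← mul_assoc, ENNReal.mul_inv_cancel (by norm_num) (by norm_num), one_mul]
    rw [mul_left_comm, h3]
  simp_rw [h1]
  rw [ENNReal.tsum_mul_left, ENNReal.tsum_geometric]
  refine ENNReal.mul_lt_top M8_lt_top ?_
  rw [ENNReal.one_sub_inv_two, inv_inv]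
  norm_num

/-- The good event. -/
def G : Set Om := {ω | S8 ω < ∞}

lemma G_meas : MeasurableSet G := S8_measurable measurableSet_Iio

lemma G_ae : ∀ᵐ ω ∂PP, ω ∈ G := ae_lt_top S8_measurable lintegral_S8.ne

lemma G_bound {ω : Om} (h : ω ∈ G) :
    ∃ C : ℝ, 0 ≤ C ∧ ∀ n : ℕ, ∀ k < 2 ^ n, |ω ⟨n, k⟩| ≤ C * √√2 ^ n := by
  have hS : S8 ω ≠ ∞ := (show S8 ω < ∞ from h).ne
  refine ⟨max 1 (S8 ω).toReal, by positivity, fun n k hk => ?_⟩
  set C := max 1 (S8 ω).toReal with hC
  have hC1 : 1 ≤ C := le_max_left _ _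
  have h1 : ENNReal.ofReal (ω ⟨n, k⟩ ^ 8) / 4 ^ n ≤ S8 ω := by
    calc ENNReal.ofReal (ω ⟨n, k⟩ ^ 8) / 4 ^ n
        ≤ ∑ k ∈ range (2 ^ n), ENNReal.ofReal (ω ⟨n, k⟩ ^ 8) / 4 ^ n :=
          single_le_sum (f := fun k => ENNReal.ofReal (ω ⟨n, k⟩ ^ 8) / 4 ^ n)
            (fun _ _ => zero_le) (mem_range.2 hk)
      _ ≤ S8 ω := ENNReal.le_tsum n
  have h2 : ω ⟨n, k⟩ ^ 8 / 4 ^ n ≤ C := by
    have h3 := ENNReal.toReal_mono hS h1
    rw [ENNReal.toReal_div, ENNReal.toReal_ofReal (Even.pow_nonneg (by decide) _)] at h3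
    have h4 : ((4 : ℝ≥0∞) ^ n).toReal = 4 ^ n := by simp
    rw [h4] at h3
    exact h3.trans (le_max_right _ _)
  have h3 : ω ⟨n, k⟩ ^ 8 ≤ C * 4 ^ n := by
    rwa [div_le_iff₀ (by positivity)] at h2
  have h4 : (√√2) ^ 8 = 4 := by
    have h5 : (√√2) ^ 2 = √2 := Real.sq_sqrt (by positivity)
    have h6 : (√2) ^ 2 = 2 := Real.sq_sqrt (by positivity)
    calc (√√2) ^ 8 = (((√√2) ^ 2) ^ 2) ^ 2 := by ring
      _ = 4 := by rw [h5, h6]; norm_num
  have h5 : |ω ⟨n, k⟩| ^ 8 ≤ (C * √√2 ^ n) ^ 8 := by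
    rw [Even.pow_abs (by decide), mul_pow, ← pow_mul, mul_comm n 8, pow_mul, h4]
    refine h3.trans (mul_le_mul_of_nonneg_right ?_ (by positivity))
    exact le_self_pow₀ hC1 (by norm_num)
  exact le_of_pow_le_pow_left₀ (by norm_num) (by positivity) h5

/-- The `n`-th layer. -/
noncomputable def D (n : ℕ) (x : ℝ) (ω : Om) : ℝ := ∑ k ∈ range (2 ^ n), ω ⟨n, k⟩ * S n k x

lemma D_continuous (n : ℕ) (ω : Om) : Continuous fun x => D n x ω := by
  unfold D
  have := S_continuous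
  fun_prop

lemma D_measurable (n : ℕ) (x : ℝ) : Measurable (D n x) := by
  unfold D
  fun_prop

lemma D_bound {ω : Om} (h : ω ∈ G) : ∃ C : ℝ, ∀ n x, 0 ≤ x → |D n x ω| ≤ C * (√√2)⁻¹ ^ n := by
  obtain ⟨C, hC0, hC⟩ := G_bound h
  refine ⟨C, fun n x hx => ?_⟩
  have h1 := abs_layer_le hx (fun k => ω ⟨n, k⟩) (M := C * √√2 ^ n) (by positivity) (hC n)
  refine h1.trans (le_of_eq ?_)
  have h5 : (√√2) ^ n * (√√2) ^ n = √2 ^ n := by
    rw [← mul_pow, Real.mul_self_sqrt (by positivity)]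
  have h7 : (√√2) ^ n ≠ 0 := by positivity
  rw [← h5, inv_pow, mul_inv, mul_assoc, mul_inv_cancel_left₀ h7]

lemma summable_geo : Summable fun n : ℕ => (√√2)⁻¹ ^ n := by
  apply summable_geometric_of_lt_one (by positivity)
  apply inv_lt_one_of_one_lt₀
  rw [Real.lt_sqrt (by norm_num), one_pow, Real.lt_sqrt (by norm_num)]
  norm_num

/-- The Brownian bridge. -/
noncomputable def W (x : ℝ) (ω : Om) : ℝ := ∑' n, D n x ω

lemma D_summable {ω : Om} (h : ω ∈ G) {x : ℝ} (hx : 0 ≤ x) : Summable fun n => D n x ω := by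
  obtain ⟨C, hC⟩ := D_bound h
  refine Summable.of_norm_bounded (summable_geo.mul_left C) fun n => ?_
  exact hC n x hx

/-- The change of time. -/
noncomputable def xx (t : ℝ≥0) : ℝ := t / (1 + t)

lemma xx_nonneg (t : ℝ≥0) : 0 ≤ xx t := by unfold xx; positivity

lemma xx_mem (t : ℝ≥0) : xx t ∈ Set.Icc (0:ℝ) 1 := by
  refine ⟨xx_nonneg t, ?_⟩
  unfold xx
  rw [div_le_one (by positivity)]
  linarith

lemma xx_continuous : Continuous xx := by
  unfold xx
  refine Continuous.div (by fun_prop) (by fun_prop) fun t => by positivity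

open Classical in
/-- Brownian motion. -/
noncomputable def B (t : ℝ≥0) (ω : Om) : ℝ := if ω ∈ G then (1 + t) * W (xx t) ω else 0

lemma B_continuous (ω : Om) : Continuous fun t => B t ω := by
  by_cases h : ω ∈ G
  · have h1 : (fun t => B t ω) = fun t : ℝ≥0 => (1 + (t:ℝ)) * W (xx t) ω := by
      funext t
      exact if_pos h
    rw [h1]
    have h2 : Continuous fun t : ℝ≥0 => W (xx t) ω := by
      obtain ⟨C, hC⟩ := D_bound h
      unfold W
      refine continuous_tsum (u := fun n => C * (√√2)⁻¹ ^ n) (fun n => ?_)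
        (summable_geo.mul_left C) fun n t => ?_
      · exact (D_continuous n ω).comp xx_continuous
      · exact hC n _ (xx_nonneg t)
    fun_prop
  · have h1 : (fun t => B t ω) = fun _ => 0 := by
      funext t
      exact if_neg h
    rw [h1]
    exact continuous_const

open Classical in
/-- partial sums -/
noncomputable def BN (N : ℕ) (t : ℝ≥0) (ω : Om) : ℝ :=
  (1 + t) * ∑ n ∈ range N, D n (xx t) ω

lemma BN_tendsto {ω : Om} (h : ω ∈ G) (t : ℝ≥0) :
    Tendsto (fun N => BN N t ω) atTop (𝓝 (B t ω)) := by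
  have h1 : B t ω = (1 + t) * W (xx t) ω := if_pos h
  rw [h1]
  exact ((D_summable h (xx_nonneg t)).hasSum.tendsto_sum_nat).const_mul _

lemma BN_measurable (N : ℕ) (t : ℝ≥0) : Measurable (BN N t) := by
  unfold BN
  have := D_measurable
  fun_prop

lemma B_measurable (t : ℝ≥0) : Measurable (B t) := by
  classical
  refine measurable_of_tendsto_metrizable (f := fun (N : ℕ) (ω : Om) => if ω ∈ G then BN N t ω else 0)
    (fun N => Measurable.ite G_meas (BN_measurable N t) measurable_const) ?_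
  rw [tendsto_pi_nhds]
  intro ω
  by_cases h : ω ∈ G
  · simp only [if_pos h]
    exact BN_tendsto h t
  · simp only [if_neg h]
    have : B t ω = 0 := if_neg h
    rw [this]
    exact tendsto_const_nhds

/-- Linear combinations of the Gaussians. -/
lemma charFun_lin (F : Finset Idx) (a : Idx → ℝ) (u : ℝ) :
    charFun (PP.map fun ω : Om => ∑ p ∈ F, ω p * a p) u =
      Complex.exp (-(((∑ p ∈ F, a p ^ 2 : ℝ) : ℂ) * u ^ 2 / 2)) := by
  have h1 : iIndepFun (fun (p : Idx) (ω : Om) => ω p * a p) PP :=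
    indep.comp (fun p x => x * a p) (fun p => by fun_prop)
  have h2 := (h1.restrict F).charFun_map_fun_finsetSum_eq_prod (s := F)
    (X := fun (p : Idx) (ω : Om) => ω p * a p) (fun p _ => Measurable.aemeasurable (by fun_prop))
  have h3 := congrFun h2 u
  rw [h3, Finset.prod_apply]
  have h4 : ∀ p ∈ F, charFun (PP.map fun ω : Om => ω p * a p) u =
      Complex.exp (-((a p ^ 2 : ℝ) * u ^ 2 / 2)) := by
    intro p _
    have h5 : PP.map (fun ω : Om => ω p * a p) = (PP.map fun ω : Om => ω p).map (fun x => x * a p) := by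
      rw [Measure.map_map (by fun_prop) (by fun_prop)]
      rfl
    rw [h5, law, gaussianReal_map_mul_const, charFun_gaussianReal]
    congr 1
    simp
  rw [prod_congr rfl h4, ← Complex.exp_sum]
  congr 1
  push_cast
  rw [sum_neg_distrib, sum_mul, sum_div]

end Pool.Agent.Helper59.BM
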